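import Mathlib
import Pool.Agent.Results.MP_6bd959_co.BoundedExample

set_option autoImplicit false

/-!
Splitting into `k` coverings.
-/

namespace Pool.Agent.Y355.CD

open Polynomial
open Pool.Agent.Results.MP_6bd959_co.BoundedExample (Good poor_separated Phi)

/-- a countable family of infinite sets has an injective transversal -/
lemma transversal {ω α : Type*} [Countable ω] (E : ω → Set α) (hE : ∀ a, (E a).Infinite) :
    ∃ g : ω → α, Function.Injective g ∧ ∀ a, g a ∈ E a := by
  classical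
  obtain ⟨enc, henc⟩ := exists_injective_nat ω
  have h1 : ∀ x : ω, ∃ F : Finset α, (↑F : Set α) ⊆ E x ∧ F.card = enc x + 1 :=
    fun x => (hE x).exists_subset_card_eq _
  choose F hF hcard using h1
  have hall : ∀ s : Finset ω, s.card ≤ (s.biUnion F).card := by
    intro s
    rcases s.eq_empty_or_nonempty with rfl | hs
    · simp
    obtain ⟨x, hx, hmax⟩ := s.exists_max_image enc hs
    have h2 : s.card ≤ enc x + 1 := by
      have : s.card ≤ (Finset.range (enc x + 1)).card := by
        apply Finset.card_le_card_of_injOn enc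
        · intro y hy
          have := hmax y hy
          simp only [Finset.coe_range, Set.mem_Iio]
          omega
        · intro y _ z _ h
          exact henc h
      simpa using this
    calc s.card ≤ _ := h2
      _ = (F x).card := (hcard x).symm
      _ ≤ _ := Finset.card_le_card (Finset.subset_biUnion_of_mem F hx)
  obtain ⟨g, hg, hgF⟩ := (Finset.all_card_le_biUnion_card_iff_exists_injective F).1 hall
  exact ⟨g, hg, fun a => hF a (hgF a)⟩

/-- a countable family of infinite sets can be coloured with `k` colours so that all colours occur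
in all the sets -/
lemma exists_colouring {κ α : Type*} [Countable κ] (E : κ → Set α) (hE : ∀ a, (E a).Infinite)
    {k : ℕ} (hk : 1 ≤ k) : ∃ c : α → Fin k, ∀ a j, ∃ x ∈ E a, c x = j := by
  obtain ⟨g, hg, hgE⟩ := transversal (ω := κ × Fin k) (fun x => E x.1) (fun x => hE x.1)
  refine ⟨Function.extend g Prod.snd (fun _ => ⟨0, hk⟩), fun a j =>
    ⟨g (a, j), hgE (a, j), ?_⟩⟩
  rw [hg.extend_apply]

lemma exists_fin_inj {α : Type*} {s : Set α} {k : ℕ} (h : (k : ℕ∞) ≤ s.encard) :
    ∃ f : Fin k → α, Function.Injective f ∧ ∀ j, f j ∈ s := by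
  obtain ⟨t, hts, ht⟩ := Set.exists_subset_encard_eq h
  have hfin : t.Finite := Set.finite_of_encard_eq_coe ht
  have hc : hfin.toFinset.card = k := by
    have h1 := hfin.encard_eq_coe_toFinset_card
    rw [ht] at h1
    exact_mod_cast h1.symm
  refine ⟨fun j => ((hfin.toFinset.equivFinOfCardEq hc).symm j : α), ?_, ?_⟩
  · intro i j hij
    exact (hfin.toFinset.equivFinOfCardEq hc).symm.injective (Subtype.ext hij)
  · intro j
    exact hts (hfin.mem_toFinset.1 ((hfin.toFinset.equivFinOfCardEq hc).symm j).2)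

section coset

variable {ι : Type*} {τ : ℝ} (hτ0 : 0 < τ) (hτ1 : τ < 1) (b : ι → ℤ[X])

include hτ0 hτ1

lemma coset_split_k (hinj : Function.Injective (fun p : ℤ[X] => aeval τ p)) {k : ℕ} (hk : 1 ≤ k)
    (hcov : ∀ a : ℤ[X], (k : ℕ∞) ≤ Set.encard {i | a - b i ∈ Good τ}) :
    ∃ c : ι → Fin k, ∀ (a : ℤ[X]) (j : Fin k), ∃ i, c i = j ∧ a - b i ∈ Good τ := by
  classical
  have hcnt : Countable ℤ[X] := by
    rw [← Cardinal.mk_le_aleph0_iff]
    refine (Polynomial.cardinalMk_le_max).trans ?_
    simp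
  set cov : ℤ[X] → Set ι := fun a => {i | a - b i ∈ Good τ} with hcovdef
  have hpick : ∀ a : ℤ[X], ∃ f : Fin k → ι, Function.Injective f ∧ ∀ j, f j ∈ cov a :=
    fun a => exists_fin_inj (hcov a)
  choose f hfinj hf using hpick
  have hne : ∀ a : ℤ[X], ∃ i, a - b i ∈ Good τ := fun a => ⟨f a ⟨0, hk⟩, hf a _⟩
  have hsep := fun a a' => @poor_separated ι τ hτ0 hτ1 b hne a a'
  -- two polynomials covered by a common member have values at distance less than one
  have hclose : ∀ a a' : ℤ[X], ∀ i, i ∈ cov a → i ∈ cov a' → |aeval τ a - aeval τ a'| < 1 := by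
    intro a a' i hi hi'
    have h1 := hi.1
    have h2 := hi.2.1
    have h3 := hi'.1
    have h4 := hi'.2.1
    rw [map_sub] at h1 h2 h3 h4
    rw [abs_lt]
    constructor <;> linarith
  have hpoor : ∀ a a' : ℤ[X], (cov a).Finite → (cov a').Finite →
      |aeval τ a - aeval τ a'| < 1 → a = a' := by
    intro a a' ha ha' hab
    rw [abs_lt] at hab
    rcases lt_trichotomy (aeval τ a) (aeval τ a') with h | h | h
    · have := hsep a a' ha ha' h
      linarith
    · exact hinj h
    · have := hsep a' a ha' ha h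
      linarith
  set U : Set ι := {i | ∃ x : ℤ[X] × Fin k, (cov x.1).Finite ∧ i = f x.1 x.2} with hU
  have hUfin : ∀ a, (cov a ∩ U).Finite := by
    intro a
    have hsub : {a' : ℤ[X] | (cov a').Finite ∧ |aeval τ a - aeval τ a'| < 1}.Finite := by
      have h1 : {a' : ℤ[X] | ((cov a').Finite ∧ |aeval τ a - aeval τ a'| < 1) ∧
          aeval τ a' ≤ aeval τ a}.Subsingleton := by
        rintro x ⟨⟨hx, hx1⟩, hx2⟩ y ⟨⟨hy, hy1⟩, hy2⟩
        apply hpoor x y hx hy
        rw [abs_lt] at *
        constructor <;> linarith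
      have h2 : {a' : ℤ[X] | ((cov a').Finite ∧ |aeval τ a - aeval τ a'| < 1) ∧
          aeval τ a ≤ aeval τ a'}.Subsingleton := by
        rintro x ⟨⟨hx, hx1⟩, hx2⟩ y ⟨⟨hy, hy1⟩, hy2⟩
        apply hpoor x y hx hy
        rw [abs_lt] at *
        constructor <;> linarith
      refine (h1.finite.union h2.finite).subset ?_
      intro x hx
      rcases le_total (aeval τ x) (aeval τ a) with h | h
      · exact Or.inl ⟨hx, h⟩
      · exact Or.inr ⟨hx, h⟩
    refine ((hsub.biUnion (t := fun a' => Set.range (f a'))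
      (fun a' _ => Set.finite_range (f a')))).subset ?_
    rintro i ⟨hi, ⟨a', j⟩, ha', hia'⟩
    subst hia'
    exact Set.mem_biUnion (x := a') ⟨ha', hclose a a' _ hi (hf a' j)⟩ ⟨j, rfl⟩
  obtain ⟨c0, hc0⟩ := exists_colouring (κ := {a : ℤ[X] // (cov a).Infinite})
    (fun a => cov a.1 \ U) (fun a => by
      have := a.2.sdiff (hUfin a.1)
      rwa [Set.sdiff_self_inter] at this) hk
  refine ⟨fun i => if h : ∃ x : ℤ[X] × Fin k, (cov x.1).Finite ∧ i = f x.1 x.2 then h.choose.2
    else c0 i, fun a j => ?_⟩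
  by_cases ha : (cov a).Finite
  · refine ⟨f a j, ?_, hf a j⟩
    have hex : ∃ x : ℤ[X] × Fin k, (cov x.1).Finite ∧ f a j = f x.1 x.2 := ⟨(a, j), ha, rfl⟩
    simp only [dif_pos hex]
    have key : ∀ x : ℤ[X] × Fin k, (cov x.1).Finite → f a j = f x.1 x.2 → x.2 = j := by
      rintro ⟨a', j'⟩ h1 h2
      simp only at h1 h2
      have h3 : a = a' := hpoor _ _ ha h1 (hclose _ _ (f a j) (hf a j) (h2 ▸ hf a' j'))
      subst h3
      exact (hfinj a h2).symm
    exact key _ hex.choose_spec.1 hex.choose_spec.2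
  · obtain ⟨x, hx, hxj⟩ := hc0 ⟨a, ha⟩ j
    refine ⟨x, ?_, hx.1⟩
    have hno : ¬ ∃ y : ℤ[X] × Fin k, (cov y.1).Finite ∧ x = f y.1 y.2 := hx.2
    simp only [dif_neg hno]
    exact hxj

end coset

end Pool.Agent.Y355.CD
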